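import Pool.Agent.U84.AWQ.Stm
import Pool.Agent.R456.CL.Main3

/-!
# Project AWQ, package MAIN3
-/

set_option autoImplicit false

namespace Pool.Agent.U461.AWQ

open Pool.Agent.R456.CL Pool.Agent.U84.AWQ Pool.Agent.R456.CL.Main3

universe u

variable {A : Type u} [CStarAlgebra A]

theorem cp_one : CP (1 : A) := ⟨⟨mul_one 1, star_one A⟩, fun x => by rw [one_mul, mul_one]⟩

theorem cpl {z : A} (hz : CP z) (x y : A) : x * (z * y) = z * (x * y) := by
  rw [← mul_assoc, ← hz.2 x, mul_assoc]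

theorem cpz {z : A} (hz : CP z) (x : A) : z * (z * x) = z * x := by
  rw [← mul_assoc, hz.1.isIdempotentElem.eq]

theorem cpm {z : A} (hz : CP z) (x y : A) : z * x * (z * y) = z * (x * y) := by
  rw [cpl hz, mul_assoc, cpz hz]

theorem cps {z : A} (hz : CP z) (x : A) : star (z * x) = z * star x := by
  rw [star_mul, hz.1.isSelfAdjoint.star_eq, hz.2]

theorem cp_pj {z p : A} (hz : CP z) (hp : PJ p) : PJ (z * p) := by
  refine ⟨?_, ?_⟩
  · show z * p * (z * p) = z * p
    rw [cpm hz, hp.isIdempotentElem.eq]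
  · show star (z * p) = z * p
    rw [cps hz, hp.isSelfAdjoint.star_eq]

theorem cp_mul {z w : A} (hz : CP z) (hw : CP w) : CP (z * w) := by
  refine ⟨cp_pj hz hw.1, fun x => ?_⟩
  rw [mul_assoc, hw.2 x, cpl hz x w]

theorem cp_sub {z : A} (hz : CP z) : CP (1 - z) := by
  refine ⟨pj_sub hz.1 cp_one.1 (mul_one z), fun x => ?_⟩
  rw [sub_mul, mul_sub, one_mul, mul_one, hz.2]

theorem sub_cut {z p q : A} (hz : CP z) (h : Sub p q) : Sub (z * p) (z * q) := by
  obtain ⟨v, h1, h2⟩ := h
  refine ⟨z * v, ?_, ?_⟩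
  · rw [cps hz, cpm hz, h1]
  · rw [cps hz, cpm hz, cpm hz, h2]

theorem pi_cut {z g : A} (hz : CP z) (hg : PI g) : PI (z * g) := by
  refine ⟨cp_pj hz hg.1, fun w hw h => ?_⟩
  rw [← mul_assoc] at h ⊢
  exact hg.2 _ (cp_mul hw hz) h

theorem small_cut {z g s : A} (hz : CP z) (h : Small g s) : Small (z * g) (z * s) := by
  intro w hw h1
  rw [← mul_assoc] at h1 ⊢
  rw [← mul_assoc]
  exact h _ (cp_mul hw hz) h1

theorem sub_zero_eq {g : A} (hg : PJ g) (h : Sub g 0) : g = 0 := by
  obtain ⟨v, h1, h2⟩ := h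
  rw [mul_zero] at h2
  have h3 := mul_of_initial hg h1
  calc g = star v * v := h1.symm
    _ = star v * (v * g) := by rw [h3]
    _ = star v * (v * (star v * v)) := by rw [h1]
    _ = star v * ((v * star v) * v) := by noncomm_ring
    _ = 0 := by rw [← h2]; simp

theorem sub_refl {g : A} (hg : PJ g) : Sub g g := by
  refine ⟨g, ?_, ?_⟩
  · rw [hg.isSelfAdjoint.star_eq, hg.isIdempotentElem.eq]
  · rw [hg.isSelfAdjoint.star_eq, hg.isIdempotentElem.eq, hg.isIdempotentElem.eq]

theorem sum_smallL (hD : PDichL A) {g : A} (hg : PI g) {ι : Type*}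
    (t : Finset ι) (p : ι → A) (hp : ∀ i, PJ (p i)) (ho : ∀ i j, i ≠ j → p i * p j = 0)
    (hs : ∀ i ∈ t, Small g (p i)) : Small g (∑ i ∈ t, p i) := by
  classical
  induction t using Finset.induction_on with
  | empty =>
    rw [Finset.sum_empty]
    intro w hw h1 h2
    rw [mul_zero] at h2
    exact h1 (sub_zero_eq (cp_pj hw hg.1) h2)
  | insert i t hi ih =>
    rw [Finset.sum_insert hi]
    have ih' := ih (fun j hj => hs j (Finset.mem_insert_of_mem hj))
    intro w hw h1 hcon
    have h0 : p i * (∑ j ∈ t, p j) = 0 := by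
      rw [Finset.mul_sum]
      apply Finset.sum_eq_zero
      intro j hj
      exact ho i j (fun h => hi (h ▸ hj))
    rw [mul_add] at hcon
    obtain ⟨z, hz, hz1, hz2⟩ := hD (w * g) (w * p i) (w * ∑ j ∈ t, p j) (pi_cut hw hg)
      (cp_pj hw (hp i)) (cp_pj hw (sum_pj t p hp ho)) (by rw [cpm hw, h0, mul_zero]) hcon
    by_cases hzw : z * (w * g) = 0
    · have h3 : (1 - z) * (w * g) ≠ 0 := by
        rw [sub_mul, hzw, one_mul, sub_zero]; exact h1
      refine ih' ((1 - z) * w) (cp_mul (cp_sub hz) hw) (by rwa [mul_assoc]) ?_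
      rw [mul_assoc, mul_assoc]
      exact hz2
    · refine hs i (Finset.mem_insert_self i t) (z * w) (cp_mul hz hw) (by rwa [mul_assoc]) ?_
      rw [mul_assoc, mul_assoc]
      exact hz1

theorem exists_cut {g : A} (hg0 : g ≠ 0) {ι : Type*} (t : Finset ι) (p : ι → A) :
    ∃ z : A, CP z ∧ z * g ≠ 0 ∧ ∀ i ∈ t, Small (z * g) (z * p i) ∨ Sub (z * g) (z * p i) := by
  classical
  induction t using Finset.induction_on with
  | empty =>
    exact ⟨1, cp_one, by rwa [one_mul], fun i hi => absurd hi (Finset.notMem_empty i)⟩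
  | insert i t hi ih =>
    obtain ⟨z, hz, hzg, h⟩ := ih
    by_cases hS : Small (z * g) (z * p i)
    · refine ⟨z, hz, hzg, fun j hj => ?_⟩
      rcases Finset.mem_insert.1 hj with rfl | hj
      · exact Or.inl hS
      · exact h j hj
    · obtain ⟨w, hw, hwz, hsub⟩ : ∃ w : A, CP w ∧ w * (z * g) ≠ 0 ∧
          Sub (w * (z * g)) (w * (z * p i)) := by
        by_contra hcon
        apply hS
        intro w hw hwz hsub
        exact hcon ⟨w, hw, hwz, hsub⟩
      refine ⟨w * z, cp_mul hw hz, by rwa [mul_assoc], fun j hj => ?_⟩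
      rw [mul_assoc, mul_assoc]
      rcases Finset.mem_insert.1 hj with rfl | hj
      · exact Or.inr hsub
      · rcases h j hj with h | h
        · exact Or.inl (small_cut hw h)
        · exact Or.inr (sub_cut hw h)

theorem main3L (hSa : PSa A) (hD : PDichL A) : PMain3L A := by
  classical
  intro g a hg hg0 hsa hag hsm
  obtain ⟨ι, _, p, l, hp, ho, hsum, hcomm, hn⟩ := hSa g a hg.1 hsa hag (1 / 400) (by norm_num)
  obtain ⟨z, hz, hzg, hz2⟩ := exists_cut hg0 (Finset.univ : Finset ι) p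
  have hz3 : ∀ i, Small (z * g) (z * p i) ∨ Sub (z * g) (z * p i) :=
    fun i => hz2 i (Finset.mem_univ i)
  have hpg : ∀ i, Le (p i) g := by
    intro i
    show p i * g = p i
    rw [← hsum, Finset.mul_sum, Finset.sum_eq_single i]
    · exact (hp i).isIdempotentElem.eq
    · intro j _ hj
      exact ho i j (Ne.symm hj)
    · intro h; exact absurd (Finset.mem_univ i) h
  obtain ⟨h, hh⟩ : ∃ h : A, h = z * g := ⟨_, rfl⟩
  have hhPI : PI h := hh ▸ pi_cut hz hg
  have hh0 : h ≠ 0 := hh ▸ hzg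
  have hP : ∀ i, PJ (z * p i) := fun i => cp_pj hz (hp i)
  have hPo : ∀ i j, i ≠ j → z * p i * (z * p j) = 0 := fun i j hij => by
    rw [cpm hz, ho i j hij, mul_zero]
  have hPsum : ∑ i, z * p i = h := by rw [← Finset.mul_sum, hsum, hh]
  have hPh : ∀ i, Le (z * p i) h := by
    intro i
    show z * p i * h = z * p i
    rw [hh, cpm hz, hpg i]
  have hL : ∃ i0, Sub h (z * p i0) := by
    by_contra hcon
    push Not at hcon
    have h1 : ∀ i ∈ (Finset.univ : Finset ι), Small h (z * p i) := by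
      intro i _
      rcases hz3 i with h2 | h2
      · rw [hh]; exact h2
      · rw [← hh] at h2; exact absurd h2 (hcon i)
    have h2 := sum_smallL hD hhPI Finset.univ (fun i => z * p i) hP hPo h1
    rw [hPsum] at h2
    have h3 := h2 1 cp_one (by rwa [one_mul])
    rw [one_mul] at h3
    exact h3 (sub_refl hhPI.1)
  obtain ⟨i0, hi0⟩ := hL
  obtain ⟨a0, ha0⟩ : ∃ a0 : A, a0 = ∑ i, (l i : ℂ) • p i := ⟨_, rfl⟩
  rw [← ha0] at hn
  have ha0p : ∀ i, a0 * p i = (l i : ℂ) • p i := by
    intro i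
    rw [ha0, Finset.sum_mul, Finset.sum_eq_single i]
    · rw [smul_mul_assoc, (hp i).isIdempotentElem.eq]
    · intro j _ hj
      rw [smul_mul_assoc, ho j i hj, smul_zero]
    · intro h; exact absurd (Finset.mem_univ i) h
  have hb0p : ∀ i, z * a0 * (z * p i) = (l i : ℂ) • (z * p i) := by
    intro i
    rw [cpm hz, ha0p, mul_smul_comm]
  have hzn : ‖z‖ ≤ 1 := pj_norm hz.1
  have hnz : ‖z * a - z * a0‖ ≤ 1 / 400 := by
    rw [← mul_sub]
    refine (norm_mul_le _ _).trans ?_
    exact (mul_le_of_le_one_left (norm_nonneg _) hzn).trans hn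
  have hsmz : ∀ e : A, PJ e → Le e h → ∃ c : A, PJ c ∧ Le c h ∧ ¬ Sub h c ∧
      ‖(h - e) * (z * a) * e * (h - c)‖ ≤ 1 / 400 := by
    intro e he heh
    have hze : z * e = e := by
      have h1 : e * (z * g) = e := hh ▸ heh
      calc z * e = z * (e * (z * g)) := by rw [h1]
        _ = z * (z * (e * g)) := by rw [cpl hz]
        _ = e * (z * g) := by rw [cpz hz, cpl hz]
        _ = e := h1
    have heg : Le e g := by
      have h1 : e * (z * g) = e := hh ▸ heh
      show e * g = e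
      calc e * g = e * (z * g) * g := by rw [h1]
        _ = e * (z * (g * g)) := by noncomm_ring
        _ = e := by rw [hg.1.isIdempotentElem.eq, h1]
    obtain ⟨c, hc1, hc2, hc3, hc4⟩ := hsm e he heg
    refine ⟨z * c, cp_pj hz hc1, ?_, ?_, ?_⟩
    · show z * c * h = z * c
      rw [hh, cpm hz, hc2]
    · have h2 := small_cut hz hc3 1 cp_one (by rw [one_mul]; exact hzg)
      rw [one_mul, one_mul] at h2
      rw [hh]; exact h2
    · have h3 : (h - e) * (z * a) * e * (h - z * c) = z * ((g - e) * a * e * (g - c)) := by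
        have h4 : h - e = z * (g - e) := by rw [mul_sub, hze, hh]
        have h5 : h - z * c = z * (g - c) := by rw [mul_sub, hh]
        rw [h4, h5, cpm hz, mul_assoc z, cpm hz]
      rw [h3]
      refine (norm_mul_le _ _).trans ?_
      refine (mul_le_of_le_one_left (norm_nonneg _) hzn).trans (hc4.trans (by norm_num))
  have hpair : ∀ i, Sub h (z * p i) → |l i - l i0| ≤ 4 * (1 / 400) := by
    intro i hi
    by_cases h1 : i = i0
    · rw [h1, sub_self, abs_zero]; norm_num
    · exact pair_bound hhPI.1 (hP i) (hP i0) (hPo i i0 h1) (hPh i) (hPh i0) hi hi0 (hb0p i)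
        (hb0p i0) (by norm_num) hnz hsmz
  let t : Finset ι := Finset.univ.filter (fun i => Sub h (z * p i))
  let t' : Finset ι := Finset.univ.filter (fun i => ¬ Sub h (z * p i))
  have htt : ∑ i ∈ t, z * p i + ∑ i ∈ t', z * p i = h := by
    rw [← hPsum]
    exact Finset.sum_filter_add_sum_filter_not _ _ _
  have hPJs : PJ (∑ i ∈ t', z * p i) := sum_pj t' (fun i => z * p i) hP hPo
  have hgs : h - ∑ i ∈ t', z * p i = ∑ i ∈ t, z * p i := by rw [← htt]; abel
  have hLes : Le (∑ i ∈ t', z * p i) h := by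
    show (∑ i ∈ t', z * p i) * h = ∑ i ∈ t', z * p i
    rw [Finset.sum_mul]
    exact Finset.sum_congr rfl (fun i _ => hPh i)
  refine ⟨z, hz, hzg, ∑ i ∈ t', z * p i, l i0, hPJs, hh ▸ hLes, ?_, ?_⟩
  · rw [← hh]
    apply sum_smallL hD hhPI t' (fun i => z * p i) hP hPo
    intro i hi
    rcases hz3 i with h2 | h2
    · rw [hh]; exact h2
    · rw [← hh] at h2; exact absurd h2 (Finset.mem_filter.mp hi).2
  · have h0 : z * (a - ((l i0 : ℝ) : ℂ) • g) * (g - ∑ i ∈ t', z * p i)
        = (z * a - ((l i0 : ℝ) : ℂ) • h) * (∑ i ∈ t, z * p i) := by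
      have h1 : z * (a - ((l i0 : ℝ) : ℂ) • g) * (g - ∑ i ∈ t', z * p i)
          = z * (a - ((l i0 : ℝ) : ℂ) • g) * (z * (g - ∑ i ∈ t', z * p i)) := by
        rw [cpm hz, mul_assoc]
      rw [h1, mul_sub z g, ← hh]
      have h2 : z * ∑ i ∈ t', z * p i = ∑ i ∈ t', z * p i := by
        rw [Finset.mul_sum]
        exact Finset.sum_congr rfl (fun i _ => cpz hz _)
      rw [h2, hgs, mul_sub z a, mul_smul_comm, ← hh]
    rw [h0]
    have h1 : (z * a - ((l i0 : ℝ) : ℂ) • h) * (∑ i ∈ t, z * p i)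
        = (z * a - z * a0) * (∑ i ∈ t, z * p i)
          + ∑ i ∈ t, ((l i - l i0 : ℝ) : ℂ) • (z * p i) := by
      have h2 : z * a0 * (∑ i ∈ t, z * p i) = ∑ i ∈ t, (l i : ℂ) • (z * p i) := by
        rw [Finset.mul_sum]
        exact Finset.sum_congr rfl (fun i _ => hb0p i)
      have h3 : (((l i0 : ℝ) : ℂ) • h) * (∑ i ∈ t, z * p i)
          = ∑ i ∈ t, ((l i0 : ℝ) : ℂ) • (z * p i) := by
        rw [Finset.mul_sum]
        apply Finset.sum_congr rfl
        intro i _
        rw [smul_mul_assoc, le_symm (hP i) hhPI.1 (hPh i)]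
      have h4 : ∑ i ∈ t, ((l i - l i0 : ℝ) : ℂ) • (z * p i)
          = ∑ i ∈ t, (l i : ℂ) • (z * p i) - ∑ i ∈ t, ((l i0 : ℝ) : ℂ) • (z * p i) := by
        rw [← Finset.sum_sub_distrib]
        apply Finset.sum_congr rfl
        intro i _
        rw [← sub_smul]; congr 1; push_cast; ring
      rw [h4, ← h2, ← h3]
      noncomm_ring
    rw [h1]
    have h5 : ‖(z * a - z * a0) * (∑ i ∈ t, z * p i)‖ ≤ 1 / 400 := by
      refine (norm_mul_le _ _).trans ?_
      exact (mul_le_of_le_one_right (norm_nonneg _)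
        (pj_norm (sum_pj t (fun i => z * p i) hP hPo))).trans hnz
    have h6 : ‖∑ i ∈ t, ((l i - l i0 : ℝ) : ℂ) • (z * p i)‖ ≤ 4 * (1 / 400) := by
      apply comb_norm t (fun i => z * p i) hP hPo (fun i => l i - l i0) (4 * (1 / 400))
        (by norm_num)
      intro i hi
      exact hpair i (Finset.mem_filter.mp hi).2
    refine (norm_add_le _ _).trans ?_
    linarith

theorem t_MAIN3 : S_MAIN3.{u} := fun _ _ hSa hD => main3L hSa hD

end Pool.Agent.U461.AWQ
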